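import Mathlib

/-!
# Induced-metric-based embeddings of diversities into `ℓ₁` have linear worst-case distortion

For every induced-metric-based embedding rule and every finite set `X` with `n ≥ 2` points there
is a diversity on `X` on which the rule has distortion at least `⌊n/2⌋`.  Hence no such rule
has distortion `O(√n)`.

Proof: let `X = A ∪ B` with `|A| = |B| = ⌊n/2⌋ + 1`.  For a set `A` put
`δ_A S = |S \ A| + min |S ∩ A| 2 - 1` for `S ≠ ∅` (the rank function of a simple matroid, minus
one).  All `δ_A` are diversities with induced metric the uniform metric, so the rule gives all of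
them the same map `φ`.  If `δ̂ (φ B) ≤ δ̂ (φ A)`, then `δ_A B = ⌊n/2⌋` while `δ_A A = 1`, so
`φ` has distortion at least `⌊n/2⌋` for `δ_A`; otherwise exchange the roles of `A` and `B`.
-/

universe u

namespace Pool.Agent.Results.MP_00e3a8_gt.LinearLowerBound

open scoped Classical in
/-- A diversity on a set `X`: a function `δ` from the finite subsets of `X` to `ℝ` such that
(i) `δ A ≥ 0`; (ii) `δ A = 0` iff `|A| ≤ 1`; (iii) `δ (A ∪ B) ≤ δ (A ∪ C) + δ (B ∪ C)`
whenever `C ≠ ∅`. -/
structure Diversity (X : Type u) where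
  /-- the diversity function on finite subsets -/
  δ : Finset X → ℝ
  nonneg : ∀ A, 0 ≤ δ A
  eq_zero_iff : ∀ A, δ A = 0 ↔ A.card ≤ 1
  triangle : ∀ A B C : Finset X, C.Nonempty → δ (A ∪ B) ≤ δ (A ∪ C) + δ (B ∪ C)

/-- `d` is a metric on `X` (non-negativity follows from the other axioms). -/
structure IsMetric {X : Type u} (d : X → X → ℝ) : Prop where
  eq_zero_iff : ∀ x y, d x y = 0 ↔ x = y
  symm : ∀ x y, d x y = d y x
  triangle : ∀ x y z, d x z ≤ d x y + d y z

open scoped Classical in
/-- The induced metric `d_δ x y = δ {x, y}` of a diversity. -/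
noncomputable def Diversity.induced {X : Type u} (D : Diversity X) (x y : X) : ℝ := D.δ {x, y}

open scoped Classical in
lemma Diversity.isMetric_induced {X : Type u} (D : Diversity X) : IsMetric D.induced where
  eq_zero_iff x y := by
    unfold Diversity.induced
    rw [D.eq_zero_iff]
    constructor
    · intro h
      exact Finset.card_le_one.1 h x (by simp) y (by simp)
    · rintro rfl
      simp
  symm x y := by
    unfold Diversity.induced
    rw [Finset.pair_comm]
  triangle x y z := by
    have h := D.triangle {x} {z} {y} (Finset.singleton_nonempty y)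
    have e1 : ({x} ∪ {z} : Finset X) = {x, z} := rfl
    have e2 : ({x} ∪ {y} : Finset X) = {x, y} := rfl
    have e3 : ({z} ∪ {y} : Finset X) = {y, z} := by
      rw [Finset.union_comm]; rfl
    rw [e1, e2, e3] at h
    exact h

/-- The `ℓ₁` diversity on `ℝ^k`: `δ̂(A) = ∑ i, max_{a,b ∈ A} |a i - b i|`
(and `0` if `A` is empty). -/
noncomputable def l1Diversity (k : ℕ) (A : Finset (Fin k → ℝ)) : ℝ :=
  ∑ i : Fin k, ⨆ p : A × A, |(p.1 : Fin k → ℝ) i - (p.2 : Fin k → ℝ) i|

open scoped Classical in
/-- The map `φ : (X, δ₁) → (Y, δ₂)` has distortion `c`: there are `c₁, c₂ > 0` with `c = c₁ c₂`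
and `(1/c₁) δ₁(A) ≤ δ₂(φ(A)) ≤ c₂ δ₁(A)` for all finite `A ⊆ X`. -/
def HasDistortion {X : Type u} {Y : Type*} (δ₁ : Finset X → ℝ) (δ₂ : Finset Y → ℝ)
    (φ : X → Y) (c : ℝ) : Prop :=
  ∃ c₁ c₂ : ℝ, 0 < c₁ ∧ 0 < c₂ ∧ c = c₁ * c₂ ∧
    ∀ A : Finset X, (1 / c₁) * δ₁ A ≤ δ₂ (A.image φ) ∧ δ₂ (A.image φ) ≤ c₂ * δ₁ A

/-- An induced-metric-based embedding rule: it assigns to every finite metric space `(X, d)` a
dimension `k = k(X, d)` and a map `φ_d : X → ℝ^k`.  There is no further requirement. -/
structure EmbeddingRule where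
  /-- the dimension `k(X, d)` -/
  dim : ∀ (X : Type u) [Finite X] (d : X → X → ℝ), IsMetric d → ℕ
  /-- the map `φ_d` -/
  map : ∀ (X : Type u) [Finite X] (d : X → X → ℝ) (hd : IsMetric d), X → (Fin (dim X d hd) → ℝ)

/-- The dimension of the host space that the rule `R` assigns to a finite diversity. -/
noncomputable def EmbeddingRule.dimOf (R : EmbeddingRule.{u}) {X : Type u} [Finite X] (D : Diversity X) : ℕ :=
  R.dim X D.induced D.isMetric_induced

/-- The map that the rule `R` assigns to a finite diversity: the rule is applied to its induced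
metric. -/
noncomputable def EmbeddingRule.mapOf (R : EmbeddingRule.{u}) {X : Type u} [Finite X] (D : Diversity X) :
    X → (Fin (R.dimOf D) → ℝ) :=
  R.map X D.induced D.isMetric_induced

section construction

variable {X : Type u}

open scoped Classical in
/-- The rank function `|S \ A| + min |S ∩ A| 2`. -/
noncomputable def rk (A S : Finset X) : ℕ := (S \ A).card + min (S ∩ A).card 2

open scoped Classical in
lemma card_sdiff_add_card_inter' (A S : Finset X) : (S \ A).card + (S ∩ A).card = S.card :=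
  Finset.card_sdiff_add_card_inter S A

open scoped Classical in
lemma rk_mono (A : Finset X) {S T : Finset X} (h : S ⊆ T) : rk A S ≤ rk A T := by
  unfold rk
  have h1 : (S \ A).card ≤ (T \ A).card :=
    Finset.card_le_card (Finset.sdiff_subset_sdiff h (Finset.Subset.refl A))
  have h2 : (S ∩ A).card ≤ (T ∩ A).card :=
    Finset.card_le_card (Finset.inter_subset_inter h (Finset.Subset.refl A))
  omega

open scoped Classical in
lemma rk_union (A P Q : Finset X) (hPQ : (P ∩ Q).Nonempty) :
    rk A (P ∪ Q) + 1 ≤ rk A P + rk A Q := by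
  have e1 : (P ∪ Q) \ A = (P \ A) ∪ (Q \ A) := Finset.union_sdiff_distrib P Q A
  have e2 : (P ∪ Q) ∩ A = (P ∩ A) ∪ (Q ∩ A) := Finset.union_inter_distrib_right P Q A
  have c1 := Finset.card_union_add_card_inter (P \ A) (Q \ A)
  have c2 := Finset.card_union_add_card_inter (P ∩ A) (Q ∩ A)
  have c3 : ((P \ A) ∩ (Q \ A)).card + ((P ∩ A) ∩ (Q ∩ A)).card = (P ∩ Q).card := by
    rw [← card_sdiff_add_card_inter' A (P ∩ Q)]
    congr 2
    · ext x; simp only [Finset.mem_inter, Finset.mem_sdiff]; tauto
    · ext x; simp only [Finset.mem_inter]; tauto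
  have c4 : 1 ≤ (P ∩ Q).card := Finset.card_pos.2 hPQ
  have d1 : ((P ∩ A) ∩ (Q ∩ A)).card ≤ (P ∩ A).card :=
    Finset.card_le_card Finset.inter_subset_left
  have d2 : ((P ∩ A) ∩ (Q ∩ A)).card ≤ (Q ∩ A).card :=
    Finset.card_le_card Finset.inter_subset_right
  unfold rk
  rw [e1, e2]
  omega

open scoped Classical in
/-- The diversity `δ_A S = |S \ A| + min |S ∩ A| 2 - 1` (for `S ≠ ∅`). -/
noncomputable def rankDiversity (A : Finset X) : Diversity X where
  δ S := ((rk A S - 1 : ℕ) : ℝ)
  nonneg S := Nat.cast_nonneg _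
  eq_zero_iff S := by
    have h := card_sdiff_add_card_inter' A S
    rw [Nat.cast_eq_zero]
    unfold rk
    omega
  triangle S T C hC := by
    have h1 : rk A (S ∪ T) ≤ rk A ((S ∪ C) ∪ (T ∪ C)) := by
      apply rk_mono
      intro x hx
      simp only [Finset.mem_union] at hx ⊢
      tauto
    have h2 : rk A ((S ∪ C) ∪ (T ∪ C)) + 1 ≤ rk A (S ∪ C) + rk A (T ∪ C) := by
      apply rk_union
      obtain ⟨c, hc⟩ := hC
      exact ⟨c, by simp [hc]⟩
    have h3 : rk A (S ∪ T) - 1 ≤ (rk A (S ∪ C) - 1) + (rk A (T ∪ C) - 1) := by omega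
    exact_mod_cast h3

open scoped Classical in
lemma rankDiversity_pair (A : Finset X) (x y : X) :
    (rankDiversity A).δ {x, y} = if x = y then 0 else 1 := by
  split_ifs with h
  · rw [(rankDiversity A).eq_zero_iff]
    subst h
    simp
  · have hc : ({x, y} : Finset X).card = 2 := Finset.card_pair h
    have h' := card_sdiff_add_card_inter' A ({x, y} : Finset X)
    have : rk A {x, y} - 1 = 1 := by
      unfold rk
      omega
    change ((rk A {x, y} - 1 : ℕ) : ℝ) = 1
    rw [this]
    simp

lemma induced_eq (A B : Finset X) : (rankDiversity A).induced = (rankDiversity B).induced := by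
  funext x y
  change (rankDiversity A).δ _ = (rankDiversity B).δ _
  rw [rankDiversity_pair, rankDiversity_pair]

open scoped Classical in
lemma rankDiversity_self (A : Finset X) (hA : 2 ≤ A.card) : (rankDiversity A).δ A = 1 := by
  have h := card_sdiff_add_card_inter' A A
  rw [Finset.inter_self] at h
  have : rk A A - 1 = 1 := by
    unfold rk
    rw [Finset.inter_self]
    omega
  change ((rk A A - 1 : ℕ) : ℝ) = 1
  rw [this]
  simp

end construction

open scoped Classical in
/-- Any set function `h`: if `h B ≤ h A` and `δ_A B ≥ k`, then distortion at least `k`. -/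
lemma distortion_aux {X : Type u} {Y : Type*} (δ₂ : Finset Y → ℝ) (φ : X → Y)
    (A B : Finset X) (k : ℕ) (hA : 2 ≤ A.card) (hB : k + 1 ≤ rk A B)
    (hAB : δ₂ (B.image φ) ≤ δ₂ (A.image φ)) (c : ℝ)
    (hc : HasDistortion (rankDiversity A).δ δ₂ φ c) : (k : ℝ) ≤ c := by
  obtain ⟨c₁, c₂, hc₁, hc₂, rfl, h⟩ := hc
  have h1 := (h B).1
  have h2 := (h A).2
  rw [rankDiversity_self A hA, mul_one] at h2
  have h3 : (k : ℝ) ≤ (rankDiversity A).δ B := by
    change (k : ℝ) ≤ ((rk A B - 1 : ℕ) : ℝ)
    have : k ≤ rk A B - 1 := by omega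
    exact_mod_cast this
  have h4 : (1 / c₁) * (k : ℝ) ≤ c₂ := by
    calc (1 / c₁) * (k : ℝ) ≤ (1 / c₁) * (rankDiversity A).δ B := by
          apply mul_le_mul_of_nonneg_left h3
          positivity
      _ ≤ c₂ := le_trans h1 (le_trans hAB h2)
  have h5 : (k : ℝ) = c₁ * ((1 / c₁) * (k : ℝ)) := by
    field_simp
  rw [h5]
  exact mul_le_mul_of_nonneg_left h4 hc₁.le

open scoped Classical in
/-- For one of the two sets, the map `φ` has distortion at least `k`. -/
lemma distortion_aux' {X : Type u} {Y : Type*} (δ₂ : Finset Y → ℝ) (φ : X → Y)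
    (A B : Finset X) (k : ℕ) (hA : 2 ≤ A.card) (hB : 2 ≤ B.card) (hAB : k + 1 ≤ rk A B)
    (hBA : k + 1 ≤ rk B A) :
    ∃ S : Finset X, ∀ c : ℝ, HasDistortion (rankDiversity S).δ δ₂ φ c → (k : ℝ) ≤ c := by
  rcases le_total (δ₂ (B.image φ)) (δ₂ (A.image φ)) with h | h
  · exact ⟨A, fun c hc => distortion_aux δ₂ φ A B k hA hAB h c hc⟩
  · exact ⟨B, fun c hc => distortion_aux δ₂ φ B A k hB hBA h c hc⟩

open scoped Classical in
/-- The distortion of the map a rule assigns only depends on the induced metric. -/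
lemma hasDistortion_congr (R : EmbeddingRule.{u}) {X : Type u} [Finite X] (D D' : Diversity X)
    (h : D.induced = D'.induced) (δ₁ : Finset X → ℝ) (c : ℝ)
    (hc : HasDistortion δ₁ (l1Diversity (R.dimOf D)) (R.mapOf D) c) :
    HasDistortion δ₁ (l1Diversity (R.dimOf D')) (R.mapOf D') c := by
  unfold EmbeddingRule.dimOf EmbeddingRule.mapOf at *
  have key : ∀ (d d' : X → X → ℝ) (hd : IsMetric d) (hd' : IsMetric d'), d = d' →
      HasDistortion δ₁ (l1Diversity (R.dim X d hd)) (R.map X d hd) c →
      HasDistortion δ₁ (l1Diversity (R.dim X d' hd')) (R.map X d' hd') c := by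
    rintro d _ hd hd' rfl h
    exact h
  exact key _ _ _ _ h hc

/-- **Linear lower bound for induced-metric-based embeddings.**  For every
induced-metric-based embedding rule `R` and every finite set `X` with `n ≥ 2` points there is a
diversity `D` on `X` such that the map which the rule assigns to the induced metric of `D` has
no distortion smaller than `⌊n/2⌋`, as a map from `(X, δ)` to `(ℝ^k, δ̂)`. -/
theorem result (R : EmbeddingRule.{u}) (n : ℕ) (hn : 2 ≤ n) (X : Type u) [Finite X]
    (hX : Nat.card X = n) :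
    ∃ D : Diversity X, ∀ c : ℝ,
      HasDistortion D.δ (l1Diversity (R.dimOf D)) (R.mapOf D) c → ((n / 2 : ℕ) : ℝ) ≤ c := by
  classical
  have hFin : Fintype X := Fintype.ofFinite X
  have hcard : Fintype.card X = n := by rw [← Nat.card_eq_fintype_card, hX]
  set k := n / 2 with hk
  -- the two sets
  obtain ⟨A, -, hA⟩ : ∃ A : Finset X, A ⊆ Finset.univ ∧ A.card = k + 1 :=
    Finset.exists_subset_card_eq (by rw [Finset.card_univ, hcard]; omega)
  have hAc : (Aᶜ).card = n - (k + 1) := by rw [Finset.card_compl, hcard, hA]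
  obtain ⟨B, hB1, -, hB⟩ : ∃ B : Finset X, Aᶜ ⊆ B ∧ B ⊆ Finset.univ ∧ B.card = k + 1 :=
    Finset.exists_subsuperset_card_eq (Finset.subset_univ _) (by omega)
      (by rw [Finset.card_univ, hcard]; omega)
  have hAB : Bᶜ ⊆ A := by
    rw [← compl_compl A]
    exact Finset.compl_subset_compl.2 hB1
  have hBc : (Bᶜ).card = n - (k + 1) := by rw [Finset.card_compl, hcard, hB]
  have hBA : (B \ A).card = n - (k + 1) := by
    have : B \ A = Aᶜ := by
      ext x
      have := @hB1 x
      simp only [Finset.mem_sdiff, Finset.mem_compl] at this ⊢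
      tauto
    rw [this, hAc]
  have hAB' : (A \ B).card = n - (k + 1) := by
    have : A \ B = Bᶜ := by
      ext x
      have := @hAB x
      simp only [Finset.mem_sdiff, Finset.mem_compl] at this ⊢
      tauto
    rw [this, hBc]
  have hr1 : k + 1 ≤ rk A B := by
    have h := card_sdiff_add_card_inter' A B
    unfold rk
    omega
  have hr2 : k + 1 ≤ rk B A := by
    have h := card_sdiff_add_card_inter' B A
    unfold rk
    omega
  -- the common map
  obtain ⟨S, hS⟩ := distortion_aux' (l1Diversity (R.dimOf (rankDiversity A)))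
    (R.mapOf (rankDiversity A)) A B k (by omega) (by omega) hr1 hr2
  exact ⟨rankDiversity S, fun c hc => hS c (hasDistortion_congr R _ _ (induced_eq S A) _ c hc)⟩

/-- Corollary: the literal form of the question has a negative answer. There are no constant `C`
and induced-metric-based embedding rule `R` such that for all `n ≥ 2` and all `n`-point
diversities the map given by the rule has a distortion at most `C √n`. -/
theorem not_sqrt (C : ℝ) (R : EmbeddingRule.{0}) :
    ¬ ∀ n : ℕ, 2 ≤ n → ∀ (X : Type) [Finite X], Nat.card X = n → ∀ D : Diversity X,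
      ∃ c : ℝ, c ≤ C * √n ∧ HasDistortion D.δ (l1Diversity (R.dimOf D)) (R.mapOf D) c := by
  intro h
  obtain ⟨N, hN⟩ := exists_nat_gt |C|
  set n : ℕ := (2 * (N + 1)) ^ 2 with hn
  have hn2 : 2 ≤ n := by
    rw [hn]
    nlinarith [Nat.zero_le N]
  obtain ⟨D, hD⟩ := result R n hn2 (Fin n) (by simp)
  obtain ⟨c, hc1, hc2⟩ := h n hn2 (Fin n) (by simp) D
  have h1 := hD c hc2
  have h2 : n / 2 = 2 * (N + 1) ^ 2 := by
    rw [hn]
    have : (2 * (N + 1)) ^ 2 = 2 * (2 * (N + 1) ^ 2) := by ring
    rw [this]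
    exact Nat.mul_div_cancel_left _ (by norm_num)
  have h3 : √(n : ℝ) = 2 * ((N : ℝ) + 1) := by
    rw [hn]
    push_cast
    exact Real.sqrt_sq (by positivity)
  rw [h2] at h1
  rw [h3] at hc1
  push_cast at h1
  have h4 : C < (N : ℝ) + 1 := lt_of_le_of_lt (le_abs_self C) (lt_trans hN (by linarith))
  have h5 : (0 : ℝ) < (N : ℝ) + 1 := by positivity
  nlinarith

end Pool.Agent.Results.MP_00e3a8_gt.LinearLowerBound
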